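import Pool.Agent.J4.H48.BC.Coef
import Pool.Agent.J4.H48.RQ.Conn

/-! The structure of the Galois group of the normal closure of a complex cubic field, and relative
Frobenius automorphisms. -/

set_option autoImplicit false
set_option linter.style.haveILetI false
set_option linter.unusedSectionVars false

namespace Pool.Agent.J4.H48.AF
open NumberField Module IntermediateField Pool.Agent.K4H33.SK Pool.Agent.J4.H48.RQ
open Pool.Agent.J4.H48.BC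

section grp

variable {ι : Qbar →+* ℂ} {K k M : IntermediateField ℚ Qbar} [NumberField K] [Normal ℚ M]

lemma fixes_congr {L : IntermediateField ℚ Qbar} (hLM : L ≤ M) {σ τ : GQ}
    (h : rr M σ = rr M τ) : Fixes L σ ↔ Fixes L τ := by
  rw [rr_eq] at h
  exact ⟨fun h1 x hx => by rw [← h x (hLM hx)]; exact h1 x hx,
    fun h1 x hx => by rw [h x (hLM hx)]; exact h1 x hx⟩

/-- The group of the normal closure. -/
structure GS (K k M : IntermediateField ℚ Qbar) [Normal ℚ M] (σ₀ c₀ : GQ) : Prop where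
  s_k : Fixes k σ₀
  s_K : ¬ Fixes K σ₀
  c_k : ¬ Fixes k c₀
  c_K : Fixes K c₀
  three : rr M σ₀ ^ 3 = 1
  pow : ∀ τ : GQ, Fixes k τ → ∃ j < 3, rr M τ = rr M σ₀ ^ j
  comm : ∀ σ τ : GQ, Fixes k σ → Fixes k τ → rr M (τ * σ * τ⁻¹) = rr M σ
  anti : ∀ σ τ : GQ, Fixes k σ → ¬ Fixes k τ → rr M (τ * σ * τ⁻¹) = (rr M σ)⁻¹
  two : ∀ τ : GQ, ¬ Fixes k τ → rr M τ * rr M τ = 1

theorem exists_gs (hK : finrank ℚ K = 3) (hk : finrank ℚ k = 2) (hM : M = K ⊔ k)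
    (hι : ∃ x ∈ K, (ι x).im ≠ 0) : ∃ σ₀ c₀ : GQ, GS K k M σ₀ c₀ := by
  subst hM
  have hN : Normal ℚ ↥(K ⊔ k) := inferInstance
  obtain ⟨c, c₀, σ₀, hD⟩ := exists_conjData ι hK hk hN hι
  have hKM : K ≤ K ⊔ k := le_sup_left
  set s := rr (K ⊔ k) σ₀ with hs
  set t := rr (K ⊔ k) c₀ with ht
  have hpow : ∀ τ : GQ, Fixes k τ → ∃ j < 3, rr (K ⊔ k) τ = s ^ j := by
    intro τ hτ
    obtain ⟨j, hj, h⟩ := (cubic hK hk hN hD.s_k hD.s_K hτ).2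
    refine ⟨j, hj, ?_⟩
    rw [hs, ← map_pow, rr_eq]
    exact h
  have h3 : s ^ 3 = 1 := by
    rw [hs, ← map_pow, ← map_one (rr (K ⊔ k)), rr_eq]
    exact (cubic hK hk hN hD.s_k hD.s_K hD.s_k).1
  have htt : t * t = 1 := by rw [ht, ← map_mul, hD.cc₀, map_one]
  have htinv : t⁻¹ = t := inv_eq_of_mul_eq_one_left htt
  -- the basic relation
  have hrel : t * s * t⁻¹ = s⁻¹ := by
    obtain ⟨j, hj, h⟩ := hpow _ hD.a_k
    have hc : rr (K ⊔ k) c = s * t * s⁻¹ := by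
      have h1 : c = σ₀ * c₀ * σ₀⁻¹ := by rw [hD.rel]; group
      rw [h1, map_mul, map_mul, map_inv]
    have h1 : s * t * s⁻¹ * t = s ^ j := by rw [← h, map_mul, hc]
    have hj2 : j = 2 := by
      interval_cases j
      · exfalso
        apply hD.a_K
        rw [pow_zero, ← map_one (rr (K ⊔ k))] at h
        exact (fixes_congr hKM h).2 (Fixes.one K)
      · exfalso
        apply hD.sa_K
        have h2 : rr (K ⊔ k) (σ₀ * (c * c₀)⁻¹) = rr (K ⊔ k) 1 := by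
          rw [map_mul, map_inv, h, pow_one, map_one, mul_inv_cancel]
        exact (fixes_congr hKM h2).2 (Fixes.one K)
      · rfl
    subst hj2
    have h2 : t * s⁻¹ * t = s := by
      have h3 : s⁻¹ * (s * t * s⁻¹ * t) = s⁻¹ * s ^ 2 := by rw [h1]
      calc t * s⁻¹ * t = s⁻¹ * (s * t * s⁻¹ * t) := by group
        _ = s⁻¹ * s ^ 2 := h3
        _ = s := by group
    have h4 : (t * s⁻¹ * t)⁻¹ = s⁻¹ := by rw [h2]
    rw [htinv]
    calc t * s * t = (t⁻¹ * s⁻¹ * t⁻¹)⁻¹ := by group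
      _ = (t * s⁻¹ * t)⁻¹ := by rw [htinv]
      _ = s⁻¹ := h4
  have hcomm : ∀ σ τ : GQ, Fixes k σ → Fixes k τ → rr (K ⊔ k) (τ * σ * τ⁻¹) = rr (K ⊔ k) σ := by
    intro σ τ hσ hτ
    obtain ⟨i, -, hi⟩ := hpow σ hσ
    obtain ⟨j, -, hj⟩ := hpow τ hτ
    rw [map_mul, map_mul, map_inv, hi, hj, ← pow_add, add_comm, pow_add, mul_inv_cancel_right]
  have hanti0 : ∀ σ : GQ, Fixes k σ → rr (K ⊔ k) (c₀ * σ * c₀⁻¹) = (rr (K ⊔ k) σ)⁻¹ := by
    intro σ hσ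
    obtain ⟨i, -, hi⟩ := hpow σ hσ
    rw [map_mul, map_mul, map_inv, hi, ← ht, ← conj_pow, hrel, inv_pow]
  have hkn := quad_normal hk
  have hanti : ∀ σ τ : GQ, Fixes k σ → ¬ Fixes k τ →
      rr (K ⊔ k) (τ * σ * τ⁻¹) = (rr (K ⊔ k) σ)⁻¹ := by
    intro σ τ hσ hτ
    have hc : ¬ Fixes k c₀⁻¹ := fun h => hD.c₀_k (by simpa using h.inv)
    have h1 : Fixes k (τ * c₀⁻¹) := quad hk hτ hc
    have h2 : Fixes k (c₀ * σ * c₀⁻¹) := hσ.conj hkn c₀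
    have h3 := hcomm _ _ h2 h1
    rw [hanti0 σ hσ] at h3
    rw [← h3]
    congr 1
    group
  refine ⟨σ₀, c₀, hD.s_k, hD.s_K, hD.c₀_k, hD.c₀_K, h3, hpow, hcomm, hanti, ?_⟩
  intro τ hτ
  have hc : ¬ Fixes k c₀⁻¹ := fun h => hD.c₀_k (by simpa using h.inv)
  have h1 : Fixes k (τ * c₀⁻¹) := quad hk hτ hc
  have h2 := hanti0 _ h1
  rw [map_mul, map_mul, map_inv, map_mul, map_inv, ← ht] at h2
  have h4 : rr (K ⊔ k) τ * rr (K ⊔ k) τ =
      (rr (K ⊔ k) τ * t⁻¹) * (t * (rr (K ⊔ k) τ * t⁻¹) * t⁻¹) * (t * t) := by group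
  rw [h4, h2, htt]
  group

end grp

section frob

variable {L M : IntermediateField ℚ Qbar} [NumberField L] [NumberField M] {f p : ℕ}
  {𝔓 : Ideal (𝓞 Qbar)}

/-- Relative Frobenius automorphisms exist. -/
theorem exists_fr_rel (hLM : L ≤ M) (hM : Normal ℚ M) (hp : p.Prime) (h𝔓 : 𝔓.IsPrime)
    (h𝔓p : (p : 𝓞 Qbar) ∈ 𝔓) :
    ∃ g : GQ, Fixes L g ∧ Fr M 𝔓 (Ideal.absNorm (𝔓.under (𝓞 L))) g := by
  haveI := hM
  haveI := h𝔓
  letI alg : Algebra L M := (IntermediateField.inclusion hLM).toAlgebra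
  haveI tow : IsScalarTower ℚ L M := IsScalarTower.of_algebraMap_eq fun x => rfl
  haveI : IsGalois L M := isGalois_rel hLM (fun σ _ x hx => normal_mem hM σ hx)
  haveI : FiniteDimensional L M := FiniteDimensional.right ℚ L M
  haveI : IsGaloisGroup (M ≃ₐ[L] M) (𝓞 L) (𝓞 M) :=
    IsGaloisGroup.of_isFractionRing (M ≃ₐ[L] M) (𝓞 L) (𝓞 M) L M
  set Q : Ideal (𝓞 M) := 𝔓.under (𝓞 M) with hQ
  have hpQ : (p : 𝓞 M) ∈ Q := nat_mem_under h𝔓p
  have hQ0 : Q ≠ ⊥ := under_prime_ne_bot hp hpQ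
  haveI : Finite (𝓞 M ⧸ Q) := Ideal.finiteQuotientOfFreeOfNeBot Q hQ0
  obtain ⟨s, hs⟩ := IsArithFrobAt.exists_of_isInvariant (𝓞 L) (M ≃ₐ[L] M) Q
  obtain ⟨g, hg⟩ := rr_surj M (s.restrictScalars ℚ)
  have hgs : ∀ x : M, ((s x : M) : Qbar) = g x := by
    intro x
    rw [← rr_apply, hg]
    rfl
  have hu : Q.under (𝓞 L) = 𝔓.under (𝓞 L) := by
    rw [← comap_inc hLM 𝔓]
    rfl
  refine ⟨g, ?_, ?_⟩
  · intro x hx
    have h1 := hgs (algebraMap L M ⟨x, hx⟩)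
    rw [s.commutes] at h1
    exact h1.symm
  · intro x y hx hy
    obtain ⟨z, hz⟩ := exists_int hx
    have h1 := hs z
    rw [hu] at h1
    have h2 : Nat.card (𝓞 L ⧸ 𝔓.under (𝓞 L)) = Ideal.absNorm (𝔓.under (𝓞 L)) := rfl
    rw [h2, hQ, mem_under, map_sub, map_pow, hz] at h1
    have h3 : y = algebraMap (𝓞 M) (𝓞 Qbar) (MulSemiringAction.toAlgHom (𝓞 L) (𝓞 M) s z) := by
      apply RingOfIntegers.ext
      rw [alg_coe, hy, ← hz, alg_coe]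
      exact (hgs (z : M)).symm
    rw [h3]
    exact h1

/-- The prime of `L` has degree one if and only if the Frobenius automorphism fixes `L`. -/
theorem norm_fixes (hLM : L ≤ M) (hM : Normal ℚ M) (hU : Unram M f) (hp : p.Prime)
    (hpf : ¬ p ∣ f) (h𝔓 : 𝔓.IsPrime) (h𝔓p : (p : 𝓞 Qbar) ∈ 𝔓) {g : GQ} (hg : Fr M 𝔓 p g)
    (h : Ideal.absNorm (𝔓.under (𝓞 L)) = p) : Fixes L g := by
  obtain ⟨g', h1, h2⟩ := exists_fr_rel hLM hM hp h𝔓 h𝔓p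
  rw [h] at h2
  have h3 := Fr.unique hM hU hp hpf h𝔓 h𝔓p hg h2
  intro x hx
  rw [h3 x (hLM hx)]
  exact h1 x hx

/-- The order of the residue field divides. -/
lemma card_le_of_fr (hLM : L ≤ M) (hp : p.Prime) (h𝔓 : 𝔓.IsPrime)
    (h𝔓p : (p : 𝓞 Qbar) ∈ 𝔓) {q : ℕ} (hq : 1 < q) {g : GQ} (hg : Fr M 𝔓 q g) (h : Fixes L g) :
    Ideal.absNorm (𝔓.under (𝓞 L)) ≤ q := by
  haveI := h𝔓
  set P : Ideal (𝓞 L) := 𝔓.under (𝓞 L) with hP
  have hP0 : P ≠ ⊥ := under_prime_ne_bot hp (nat_mem_under h𝔓p)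
  haveI : Finite (𝓞 L ⧸ P) := Ideal.finiteQuotientOfFreeOfNeBot P hP0
  have h3 : ∀ x : 𝓞 L ⧸ P, x ^ q = x := by
    intro x
    obtain ⟨z, rfl⟩ := Ideal.Quotient.mk_surjective x
    rw [← map_pow]
    refine (Ideal.Quotient.eq.2 ?_).symm
    rw [hP, mem_under, map_sub, map_pow]
    refine hg _ _ (hLM (z : L).2) ?_
    exact (h _ (z : L).2).symm
  have h4 := card_le_of_pow hq h3
  have h2 : Nat.card (𝓞 L ⧸ P) = Ideal.absNorm P := rfl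
  rw [h2] at h4
  exact h4

end frob

end Pool.Agent.J4.H48.AF
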