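import Pool.Agent.J4.H48.BC.Coef
import Pool.Agent.J4.H48.RQ.Conn

/-! Primes in a cubic field, and the numbers of ideals. -/

set_option autoImplicit false
set_option linter.style.haveILetI false
set_option linter.unusedSectionVars false

namespace Pool.Agent.J4.H48.AF
open NumberField Module IntermediateField Pool.Agent.K4H33.SK Pool.Agent.J4.H48.RQ
open Pool.Agent.J4.H48.BC

/-- `u * A` vanishes at the multiples of `p`. -/
def Kills (p : ℕ) (u A : ArithmeticFunction ℤ) : Prop := ∀ n, n ≠ 0 → p ∣ n → (u * A) n = 0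

lemma Kills.mul {p : ℕ} (hp : p.Prime) {u v A B : ArithmeticFunction ℤ} (h : Kills p u A)
    (h' : Kills p v B) : Kills p (u * v) (A * B) := by
  intro n hn hpn
  have h1 : u * v * (A * B) = (u * A) * (v * B) := by ring
  rw [h1, ArithmeticFunction.mul_apply]
  refine Finset.sum_eq_zero fun x hx => ?_
  rw [Nat.mem_divisorsAntidiagonal] at hx
  have ha : x.1 ≠ 0 := by intro h0; exact hn (by rw [← hx.1, h0, zero_mul])
  have hb : x.2 ≠ 0 := by intro h0; exact hn (by rw [← hx.1, h0, mul_zero])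
  rw [← hx.1] at hpn
  rcases (Nat.Prime.dvd_mul hp).1 hpn with h2 | h2
  · rw [h _ ha h2, zero_mul]
  · rw [h' _ hb h2, mul_zero]

lemma Kills.sub {p : ℕ} {u A B : ArithmeticFunction ℤ} (h : Kills p u A)
    (h' : Kills p u B) : Kills p u (A - B) := by
  intro n hn hpn
  rw [mul_sub, af_sub, h n hn hpn, h' n hn hpn, sub_zero]

/-- The constant function `1`. -/
def one1 : ArithmeticFunction ℤ := ⟨fun n => if n = 0 then 0 else 1, if_pos rfl⟩

lemma one1_apply {n : ℕ} (hn : n ≠ 0) : one1 n = 1 := by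
  show (if n = 0 then (0 : ℤ) else 1) = 1
  rw [if_neg hn]

lemma kills_one1 {p : ℕ} (hp : p.Prime) : Kills p (1 - dl p 1) one1 := by
  intro n hn hpn
  rw [sub_mul, one_mul, af_sub, one1_apply hn, dl_mul_apply hp.ne_zero _ _ hn, if_pos hpn,
    one1_apply, one_mul, sub_self]
  obtain ⟨m, rfl⟩ := hpn
  rw [Nat.mul_div_cancel_left m hp.pos]
  rintro rfl
  exact hn (by simp)

/-- Uniqueness. -/
lemma zero_of_kills {f : ℕ} {D : ArithmeticFunction ℤ} (h1 : D 1 = 0)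
    (h : ∀ p : ℕ, p.Prime → ¬ p ∣ f → ∃ u : ArithmeticFunction ℤ, u 1 = 1 ∧ Kills p u D) :
    ∀ n, n ≠ 0 → n.Coprime f → D n = 0 := by
  intro n
  induction n using Nat.strong_induction_on with
  | _ n ih =>
    intro hn hnf
    by_cases hn1 : n = 1
    · rw [hn1, h1]
    obtain ⟨p, hp, hpf, hpn⟩ := exists_prime hn hnf hn1
    obtain ⟨u, hu1, hu⟩ := h p hp hpf
    have h2 := hu n hn hpn
    rw [ArithmeticFunction.mul_apply, Finset.sum_eq_single (1, n), hu1, one_mul] at h2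
    · exact h2
    · rintro ⟨a, b⟩ hab hne
      rw [Nat.mem_divisorsAntidiagonal] at hab
      have ha : a ≠ 0 := by rintro rfl; exact hn (by rw [← hab.1]; simp)
      have hb : b ≠ 0 := by rintro rfl; exact hn (by rw [← hab.1]; simp)
      have ha1 : a ≠ 1 := by
        rintro rfl
        exact hne (by rw [← hab.1]; simp)
      have hlt : b < n := by
        rw [← hab.1]
        have : 2 ≤ a := by omega
        have hb' : 0 < b := Nat.pos_of_ne_zero hb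
        nlinarith
      show u a * D b = 0
      rw [ih b hlt hb (Nat.Coprime.coprime_dvd_left (Dvd.intro_left a hab.1) hnf), mul_zero]
    · intro h3
      exact absurd (Nat.mem_divisorsAntidiagonal.2 ⟨by simp, hn⟩) h3

section cub

variable {K : IntermediateField ℚ Qbar} [NumberField K] {f p : ℕ}

/-- The trivial symbols. -/
lemma isArtin_one {𝔪 : Ideal (𝓞 K)} (hm : 𝔪 ≠ ⊤) : IsArtin K ⊥ 𝔪 (fun _ => 1) where
  fix := fun _ _ x _ => rfl
  mul := fun _ _ _ _ x _ => rfl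
  frob := by
    intro 𝔭 h𝔭 hc 𝔓 h𝔓 hl x y hx hy
    have h𝔭0 : 𝔭 ≠ ⊥ := by
      rintro rfl
      apply hm
      have h1 := Ideal.isCoprime_iff_sup_eq.1 hc
      simpa using h1
    haveI := h𝔭.isMaximal h𝔭0
    obtain ⟨p, j, hj, hp𝔭, hp, hN⟩ := Ideal.exists_prime_and_absNorm_eq_pow 𝔭
    have hp𝔓 : (p : 𝓞 Qbar) ∈ 𝔓 := by
      have h2 : (p : 𝓞 K) ∈ 𝔓.under (𝓞 K) := by rw [← hl.over]; exact hp𝔭
      rw [mem_under, map_natCast] at h2
      exact h2
    obtain ⟨r, hr⟩ := IntermediateField.mem_bot.1 hx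
    have hr2 : IsIntegral ℤ r := by
      have h2 : IsIntegral ℤ (algebraMap ℚ Qbar r) := by rw [hr]; exact x.2
      exact (isIntegral_algebraMap_iff (algebraMap ℚ Qbar).injective).1 h2
    obtain ⟨m, hm2⟩ := IsIntegrallyClosed.isIntegral_iff.1 hr2
    have hxm : x = (m : 𝓞 Qbar) := by
      apply RingOfIntegers.ext
      rw [← hr, ← hm2]
      simp
    have hyx : y = x := RingOfIntegers.ext hy
    rw [hyx, hxm, hN]
    haveI : Fact p.Prime := ⟨hp⟩
    have h5 : (p : ℤ) ∣ m - m ^ p ^ j := by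
      rw [← ZMod.intCast_zmod_eq_zero_iff_dvd]
      push_cast
      rw [ZMod.pow_card_pow, sub_self]
    obtain ⟨t, ht⟩ := h5
    have h6 : (m : 𝓞 Qbar) - (m : 𝓞 Qbar) ^ p ^ j = (p : 𝓞 Qbar) * (t : 𝓞 Qbar) := by
      exact_mod_cast congrArg (Int.cast : ℤ → 𝓞 Qbar) ht
    rw [h6]
    exact 𝔓.mul_mem_right _ hp𝔓

instance botNF : NumberField (⊥ : IntermediateField ℚ Qbar) := by
  haveI : FiniteDimensional ℚ (⊥ : IntermediateField ℚ Qbar) :=
    FiniteDimensional.of_finrank_pos (by rw [IntermediateField.finrank_bot]; norm_num)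
  exact ⟨⟩

/-- The trivial group datum. -/
noncomputable def tg : GD ⊥ ⊥ Unit where
  q := fun _ => ()
  lift := fun _ => 1
  lift_fix := fun _ => Fixes.one _
  q_lift := fun _ => rfl
  q_mul := fun _ _ _ _ => rfl
  q_eq := fun σ τ hσ hτ => ⟨fun _ x hx => by rw [hσ x hx, hτ x hx], fun _ => rfl⟩

/-- The numbers of ideals of `K` prime to `𝔤`. -/
noncomputable def NK (K : IntermediateField ℚ Qbar) [NumberField K] (𝔤 : Ideal (𝓞 K)) :
    ArithmeticFunction ℤ := AA tg (1 : Unit →* ℤ) K 𝔤 (fun _ => 1)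

lemma NK_apply {𝔤 : Ideal (𝓞 K)} {n : ℕ} (hn : n ≠ 0) :
    NK K 𝔤 n = cnt K ⊥ 𝔤 (fun _ => 1) 1 n := by
  unfold NK
  rw [AA_apply _ _ hn]
  simp [tg]

lemma NK_eq {n : ℕ} (hn : n ≠ 0) (hnf : n.Coprime f) :
    NK K (Ideal.span {(f : 𝓞 K)}) n =
      (Nat.card {𝔞 : Ideal (𝓞 K) // Ideal.absNorm 𝔞 = n} : ℤ) := by
  rw [NK_apply hn]
  unfold cnt
  congr 1
  refine Nat.card_congr (Equiv.subtypeEquivRight fun 𝔟 => ?_)
  constructor
  · exact fun h => h.1
  · exact fun h => ⟨h, (coprime_norm 𝔟).2 (by rw [h]; exact hnf), fun _ _ => rfl⟩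

lemma span_ne_top (hf : 2 ≤ f) : Ideal.span {(f : 𝓞 K)} ≠ ⊤ := by
  intro h
  have h1 : IsCoprime (Ideal.span {(f : 𝓞 K)}) (Ideal.span {(f : 𝓞 K)}) := by
    rw [h, Ideal.isCoprime_iff_sup_eq]
    simp
  have h2 : (Ideal.absNorm (⊥ : Ideal (𝓞 K))).Coprime f := by
    rw [← coprime_norm, h, Ideal.isCoprime_iff_sup_eq]
    simp
  rw [Ideal.absNorm_bot, Nat.coprime_zero_left] at h2
  omega

lemma NK_prime (hf : 2 ≤ f) {𝔤 P : Ideal (𝓞 K)} (h𝔤 : Ideal.span {(f : 𝓞 K)} ∣ 𝔤)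
    (hP : P.IsPrime) (hP0 : P ≠ ⊥) (hPg : IsCoprime P 𝔤) :
    (1 - dl (Ideal.absNorm P) 1) * NK K 𝔤 = NK K (𝔤 * P) := by
  have h1 := AA_prime tg (1 : Unit →* ℤ) (F := ⊥) (B := K) (H := ⊥) (M := ⊥) bot_le le_rfl
    (isArtin_one (span_ne_top hf)) (𝔤 := 𝔤) (P := P)
    (fun 𝔟 h => IsCoprime.of_isCoprime_of_dvd_right h h𝔤) hP hP0 hPg
  rw [MonoidHom.one_apply] at h1
  exact h1

lemma NK_zero {𝔤 : Ideal (𝓞 K)} (h𝔤 : 𝔤 ≤ Ideal.span {(p : 𝓞 K)}) (hp : p.Prime) {n : ℕ}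
    (hn : n ≠ 0) (hpn : p ∣ n) : NK K 𝔤 n = 0 := by
  rw [NK_apply hn, cnt_zero h𝔤 hp _ hpn]
  rfl

lemma NK_one (hf : 2 ≤ f) : NK K (Ideal.span {(f : 𝓞 K)}) 1 = 1 := by
  rw [NK_apply one_ne_zero]
  classical
  have h1 := cnt_one (isArtin_one (K := K) (span_ne_top hf)) (L := ⊥) le_rfl 1
  rw [h1]
  simp

lemma absNorm_natCast3 (hK : finrank ℚ K = 3) (p : ℕ) :
    Ideal.absNorm (Ideal.span {(p : 𝓞 K)}) = p ^ 3 := by
  rw [Ideal.absNorm_span_singleton]
  have h1 : (p : 𝓞 K) = algebraMap ℤ (𝓞 K) (p : ℤ) := by simp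
  rw [h1, Algebra.norm_algebraMap, RingOfIntegers.rank, hK, Int.natAbs_pow, Int.natAbs_natCast]

lemma norm_cases3 (hK : finrank ℚ K = 3) (hp : p.Prime) {P : Ideal (𝓞 K)} (hP : P.IsPrime)
    (hpP : (p : 𝓞 K) ∈ P) :
    Ideal.absNorm P = p ∨ Ideal.absNorm P = p ^ 2 ∨ Ideal.absNorm P = p ^ 3 := by
  have h1 : Ideal.absNorm P ∣ p ^ 3 := by
    rw [← absNorm_natCast3 hK p]
    exact map_dvd Ideal.absNorm (Ideal.dvd_span_singleton.2 hpP)
  rw [Nat.dvd_prime_pow hp] at h1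
  obtain ⟨i, hi, h2⟩ := h1
  interval_cases i
  · exfalso
    apply hP.ne_top
    rw [pow_zero] at h2
    exact Ideal.absNorm_eq_one_iff.1 h2
  · left; rw [h2, pow_one]
  · right; left; exact h2
  · right; right; exact h2

variable (hf : 2 ≤ f) (hK : finrank ℚ K = 3) (hp : p.Prime) (hpf : ¬ p ∣ f)
  (hU : ∀ P : Ideal (𝓞 K), P.IsPrime → (p : 𝓞 K) ∈ P → (p : 𝓞 K) ∉ P ^ 2)

lemma mem_of_mul {P J : Ideal (𝓞 K)} (h : Ideal.span {(p : 𝓞 K)} = P * J) :
    (p : 𝓞 K) ∈ P ∧ (p : 𝓞 K) ∈ J := by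
  have h1 : (p : 𝓞 K) ∈ P * J := by rw [← h]; exact Ideal.mem_span_singleton_self _
  have h2 : P * J ≤ P := Ideal.mul_le_left
  have h3 : P * J ≤ J := Ideal.mul_le_right
  exact ⟨h2 h1, h3 h1⟩

include hU in
lemma ne_of_mul {P J : Ideal (𝓞 K)} (hP : P.IsPrime) (h : Ideal.span {(p : 𝓞 K)} = P * J) :
    ¬ J ≤ P := by
  intro h1
  refine hU P hP (mem_of_mul h).1 ?_
  have h2 : (p : 𝓞 K) ∈ P * J := by rw [← h]; exact Ideal.mem_span_singleton_self _
  rw [pow_two]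
  exact Ideal.mul_mono_right h1 h2

include hf hK hp hpf in
/-- The inert case. -/
theorem kills_inert (h : ∀ P : Ideal (𝓞 K), P.IsPrime → (p : 𝓞 K) ∈ P → Ideal.absNorm P ≠ p) :
    Kills p (1 - dl (p ^ 3) 1) (NK K (Ideal.span {(f : 𝓞 K)})) := by
  have hne : Ideal.span {(p : 𝓞 K)} ≠ ⊤ := by
    intro h1
    have h2 := absNorm_natCast3 hK p
    rw [h1, Ideal.absNorm_top] at h2
    have h3 := Nat.one_lt_pow (n := 3) (by norm_num) hp.one_lt
    omega
  obtain ⟨P, hPm, hPle⟩ := Ideal.exists_le_maximal _ hne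
  have hP := hPm.isPrime
  have hpP : (p : 𝓞 K) ∈ P := hPle (Ideal.mem_span_singleton_self _)
  have hP0 := under_prime_ne_bot hp hpP
  obtain ⟨J, hJ⟩ : P ∣ Ideal.span {(p : 𝓞 K)} := Ideal.dvd_span_singleton.2 hpP
  have hN := congrArg Ideal.absNorm hJ
  rw [absNorm_natCast3 hK, map_mul] at hN
  have h3 : Ideal.absNorm P = p ^ 3 := by
    rcases norm_cases3 hK hp hP hpP with h1 | h1 | h1
    · exact absurd h1 (h P hP hpP)
    · exfalso
      rw [h1] at hN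
      have h2 : Ideal.absNorm J = p := by
        have h5 : 0 < p ^ 2 := pow_pos hp.pos 2
        exact (Nat.eq_of_mul_eq_mul_left h5 (by rw [← hN]; ring)).symm
      exact h J (Ideal.isPrime_of_irreducible_absNorm (by rw [h2]; exact hp)) (mem_of_mul hJ).2 h2
    · exact h1
  have h4 : J = ⊤ := by
    rw [h3] at hN
    have h5 : 0 < p ^ 3 := pow_pos hp.pos 3
    exact Ideal.absNorm_eq_one_iff.1 (Nat.eq_of_mul_eq_mul_left h5 (by rw [← hN, mul_one]))
  rw [h4, Ideal.mul_top] at hJ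
  intro n hn hpn
  have h5 := NK_prime hf (dvd_refl (Ideal.span {(f : 𝓞 K)})) hP hP0 (coprime_f hp hpf hP hpP)
  rw [h3] at h5
  rw [h5]
  refine NK_zero (p := p) ?_ hp hn hpn
  rw [hJ]
  exact Ideal.mul_le_right

include hf hK hp hpf hU in
/-- The cases with a prime of degree one. -/
theorem kills_one (h : ∃ P : Ideal (𝓞 K), P.IsPrime ∧ (p : 𝓞 K) ∈ P ∧ Ideal.absNorm P = p) :
    ((∀ P : Ideal (𝓞 K), P.IsPrime → (p : 𝓞 K) ∈ P → Ideal.absNorm P = p) ∧
      Kills p ((1 - dl p 1) * (1 - dl p 1) * (1 - dl p 1)) (NK K (Ideal.span {(f : 𝓞 K)}))) ∨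
    ((∃ P : Ideal (𝓞 K), P.IsPrime ∧ (p : 𝓞 K) ∈ P ∧ Ideal.absNorm P ≠ p) ∧
      Kills p ((1 - dl p 1) * (1 - dl (p ^ 2) 1)) (NK K (Ideal.span {(f : 𝓞 K)}))) := by
  obtain ⟨P, hP, hpP, h1⟩ := h
  have hP0 := under_prime_ne_bot hp hpP
  obtain ⟨J, hJ⟩ : P ∣ Ideal.span {(p : 𝓞 K)} := Ideal.dvd_span_singleton.2 hpP
  have hN := congrArg Ideal.absNorm hJ
  rw [absNorm_natCast3 hK, map_mul, h1] at hN
  have h2 : Ideal.absNorm J = p ^ 2 :=
    (Nat.eq_of_mul_eq_mul_left hp.pos (by rw [← hN]; ring)).symm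
  have hJt : J ≠ ⊤ := by
    rintro rfl
    rw [Ideal.absNorm_top] at h2
    have h3 := Nat.one_lt_pow (n := 2) (by norm_num) hp.one_lt
    omega
  obtain ⟨P', hPm', hJP⟩ := Ideal.exists_le_maximal J hJt
  have hP' := hPm'.isPrime
  have hpJ := (mem_of_mul hJ).2
  have hpP' : (p : 𝓞 K) ∈ P' := hJP hpJ
  have hP0' := under_prime_ne_bot hp hpP'
  obtain ⟨J', hJ'⟩ := Ideal.dvd_iff_le.2 hJP
  have hN' := congrArg Ideal.absNorm hJ'
  rw [h2, map_mul] at hN'
  set 𝔤 : Ideal (𝓞 K) := Ideal.span {(f : 𝓞 K)} with h𝔤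
  have hc : IsCoprime P 𝔤 := coprime_f hp hpf hP hpP
  have hc' : IsCoprime P' 𝔤 := coprime_f hp hpf hP' hpP'
  have hnle : ¬ P' ≤ P := by
    intro h3
    have h4 := hPm'.eq_of_le hP.ne_top h3
    exact ne_of_mul hU hP hJ (hJP.trans h3)
  have hc2 : IsCoprime P' (𝔤 * P) := by
    refine IsCoprime.mul_right hc' ?_
    rw [isCoprime_prime_iff hP hP0]
    exact hnle
  have e1 := NK_prime hf (dvd_refl 𝔤) hP hP0 hc
  have e2 := NK_prime hf (dvd_mul_right 𝔤 P) hP' hP0' hc2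
  have hcas : Ideal.absNorm P' = p ∨ Ideal.absNorm P' = p ^ 2 := by
    rcases norm_cases3 hK hp hP' hpP' with h3 | h3 | h3
    · exact Or.inl h3
    · exact Or.inr h3
    · exfalso
      rw [h3] at hN'
      have h4 : p ^ 3 ∣ p ^ 2 := Dvd.intro _ hN'.symm
      have h5 := (Nat.pow_dvd_pow_iff_le_right hp.one_lt).1 h4
      omega
  rcases hcas with h3 | h3
  · left
    rw [h3] at hN'
    have h4 : Ideal.absNorm J' = p :=
      (Nat.eq_of_mul_eq_mul_left hp.pos (by rw [← hN']; ring)).symm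
    have hP'' : J'.IsPrime := Ideal.isPrime_of_irreducible_absNorm (by rw [h4]; exact hp)
    have hpJ' : (p : 𝓞 K) ∈ J' := by
      rw [hJ'] at hpJ
      have h2 : P' * J' ≤ J' := Ideal.mul_le_right
      exact h2 hpJ
    have hP0'' := under_prime_ne_bot hp hpJ'
    have hc'' : IsCoprime J' 𝔤 := coprime_f hp hpf hP'' hpJ'
    have hm'' := hP''.isMaximal hP0''
    have hn1 : ¬ J' ≤ P := by
      intro h5
      refine ne_of_mul hU hP hJ ?_
      rw [hJ']
      exact Ideal.mul_le_right.trans h5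
    have hn2 : ¬ J' ≤ P' := by
      intro h5
      have h6 : Ideal.span {(p : 𝓞 K)} = P' * (P * J') := by rw [hJ, hJ']; ac_rfl
      exact ne_of_mul hU hP' h6 (Ideal.mul_le_right.trans h5)
    have hc3 : IsCoprime J' (𝔤 * P * P') := by
      refine IsCoprime.mul_right (IsCoprime.mul_right hc'' ?_) ?_
      · rw [isCoprime_prime_iff hP hP0]
        exact hn1
      · rw [isCoprime_prime_iff hP' hP0']
        exact hn2
    have e3 := NK_prime hf ((dvd_mul_right 𝔤 P).trans (dvd_mul_right _ P')) hP'' hP0'' hc3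
    rw [h1] at e1
    rw [h3] at e2
    rw [h4] at e3
    refine ⟨fun R hR hpR => ?_, fun n hn hpn => ?_⟩
    · have hm1 := hP.isMaximal hP0
      have h5 : P * (P' * J') ≤ R := by
        rw [← hJ', ← hJ, Ideal.span_singleton_le_iff_mem]
        exact hpR
      rcases (hR.mul_le).1 h5 with h6 | h6
      · rw [← hm1.eq_of_le hR.ne_top h6, h1]
      · rcases (hR.mul_le).1 h6 with h7 | h7
        · rw [← hPm'.eq_of_le hR.ne_top h7, h3]
        · rw [← hm''.eq_of_le hR.ne_top h7, h4]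
    · rw [mul_assoc, e1, mul_assoc, e2, e3]
      refine NK_zero (p := p) ?_ hp hn hpn
      rw [hJ, hJ', mul_assoc, mul_assoc]
      exact Ideal.mul_le_right
  · right
    rw [h3] at hN'
    have h4 : J' = ⊤ := by
      have h5 : 0 < p ^ 2 := pow_pos hp.pos 2
      exact Ideal.absNorm_eq_one_iff.1
        (Nat.eq_of_mul_eq_mul_left h5 (by rw [← hN', mul_one]))
    rw [h4, Ideal.mul_top] at hJ'
    rw [h1] at e1
    rw [h3] at e2
    refine ⟨⟨P', hP', hpP', ?_⟩, fun n hn hpn => ?_⟩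
    · rw [h3]
      intro h5
      have h6 := hp.one_lt
      nlinarith
    · rw [mul_comm (1 - dl p 1), mul_assoc, e1, e2]
      refine NK_zero (p := p) ?_ hp hn hpn
      rw [hJ, hJ', mul_assoc]
      exact Ideal.mul_le_right

end cub

end Pool.Agent.J4.H48.AF
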