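import Pool.Agent.J4.H48.AF.A
import Pool.Agent.J4.H48.AF.B

/-! The Artin factorization `ζ_K(s) = ζ(s) L(s, ψ)` of the zeta function of a complex cubic field,
on the coefficients. -/

set_option autoImplicit false
set_option linter.style.haveILetI false
set_option linter.unusedSectionVars false

namespace Pool.Agent.J4.H48.AF
open NumberField Module IntermediateField Pool.Agent.K4H33.SK Pool.Agent.J4.H48.RQ
open Pool.Agent.J4.H48.BC

/-- The difference of two counting functions. -/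
def bb (a : ℕ → ℤ) : ArithmeticFunction ℤ := ⟨fun n => if n = 0 then 0 else a n, if_pos rfl⟩

lemma bb_apply {a : ℕ → ℤ} {n : ℕ} (hn : n ≠ 0) : bb a n = a n := by
  show (if n = 0 then (0 : ℤ) else a n) = a n
  rw [if_neg hn]

lemma dl_apply_bb {a : ℕ → ℤ} {N n : ℕ} (hN : N ≠ 0) (hn : n ≠ 0) :
    (dl N (1 : ℤ) * bb a : ArithmeticFunction ℤ) n = if N ∣ n then a (n / N) else 0 := by
  rw [dl_mul_apply hN _ _ hn]
  split_ifs with h
  · rw [one_mul, bb_apply]
    obtain ⟨m, rfl⟩ := h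
    rw [Nat.mul_div_cancel_left m (Nat.pos_of_ne_zero hN)]
    rintro rfl
    exact hn (by simp)
  · rfl

lemma if_div {a : ℕ → ℤ} {p n : ℕ} (hp : p.Prime) (hpn : p ∣ n) :
    (if p ∣ n / p then a (n / p / p) else 0) = if p ^ 2 ∣ n then a (n / p ^ 2) else 0 := by
  obtain ⟨m, rfl⟩ := hpn
  rw [Nat.mul_div_cancel_left m hp.pos, pow_two, Nat.mul_div_mul_left _ _ hp.pos]
  congr 1
  apply propext
  exact (Nat.mul_dvd_mul_iff_left hp.pos).symm

section rec

variable {G : Type*} [Group G] {A : Subgroup G} {f : ℕ} {fr : ℕ → G} {c : G → ℕ → ℤ}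

/-- The recursions of the difference. -/
theorem kills_rec (hr : Rec f A fr c) (iA : A.index = 2) (cA : ∀ x ∈ A, ∀ y ∈ A, x * y = y * x)
    {s : G} (hsA : s ∈ A) (hs1 : s ≠ 1) (hs3 : s ^ 3 = 1)
    (hpow : ∀ x ∈ A, x = 1 ∨ x = s ∨ x = s⁻¹) (hanti : ∀ x ∈ A, ∀ y, y ∉ A → y * x * y⁻¹ = x⁻¹)
    (htwo : ∀ y, y ∉ A → y * y = 1) {p : ℕ} (hp : p.Prime) (hpf : ¬ p ∣ f) :
    (fr p = 1 ∧ Kills p ((1 - dl p 1) * (1 - dl p 1)) (bb fun n => c 1 n - c s n)) ∨
    (fr p ∈ A ∧ fr p ≠ 1 ∧ Kills p (1 + dl p 1 + dl (p ^ 2) 1) (bb fun n => c 1 n - c s n)) ∨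
    (fr p ∉ A ∧ Kills p (1 - dl (p ^ 2) 1) (bb fun n => c 1 n - c s n)) := by
  have hinv : ∀ n, n ≠ 0 → ∀ x ∈ A, c x⁻¹ n = c x n := by
    intro n hn x hx
    obtain ⟨y, hy⟩ : ∃ y, y ∉ A := by
      by_contra h
      push Not at h
      have h1 : A = ⊤ := by
        rw [eq_top_iff]
        exact fun x _ => h x
      rw [h1, Subgroup.index_top] at iA
      omega
    rw [← hanti x hx y hy]
    exact hr.conj iA cA n hn x y
  have hdiv : ∀ n, n ≠ 0 → p ∣ n → n / p ≠ 0 := by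
    rintro n hn ⟨m, rfl⟩
    rw [Nat.mul_div_cancel_left m hp.pos]
    rintro rfl
    exact hn (by simp)
  have hs2 : s * s = s⁻¹ := by
    rw [eq_inv_iff_mul_eq_one, ← hs3]
    simp only [pow_succ, pow_zero, one_mul]
  by_cases hA : fr p ∈ A
  · obtain ⟨y, hy, hsp⟩ := hr.split p hp hpf hA
    have h1 : (y * fr p * y⁻¹)⁻¹ = fr p := by rw [hanti _ hA y hy, inv_inv]
    simp only [h1, inv_mul_cancel_left] at hsp
    have hsp2 : ∀ (x : G) (n : ℕ), p ∣ n → c x n =
        c ((fr p)⁻¹ * x) (n / p) + c (fr p * x) (n / p) -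
          if p ^ 2 ∣ n then c x (n / p ^ 2) else 0 := by
      intro x n hpn
      rw [hsp x n hpn, if_div (a := c x) hp hpn]
    by_cases h2 : fr p = 1
    · left
      refine ⟨h2, fun n hn hpn => ?_⟩
      have h3 : ((1 - dl p 1) * (1 - dl p 1) : ArithmeticFunction ℤ) =
          1 - dl p 1 - dl p 1 + dl (p ^ 2) 1 := by
        have h4 : dl (p ^ 2) (1 : ℤ) = dl p 1 * dl p 1 := by
          rw [dl_mul hp.ne_zero, pow_two, one_mul]
        rw [h4]
        ring
      rw [h3, add_mul, sub_mul, sub_mul, one_mul, ArithmeticFunction.add_apply, af_sub, af_sub,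
        bb_apply hn, dl_apply_bb hp.ne_zero hn, dl_apply_bb (pow_ne_zero 2 hp.ne_zero) hn,
        if_pos hpn, hsp2 1 n hpn, hsp2 s n hpn, h2]
      simp only [inv_one, one_mul]
      split_ifs <;> ring
    · right
      left
      refine ⟨hA, h2, fun n hn hpn => ?_⟩
      rw [add_mul, add_mul, one_mul, ArithmeticFunction.add_apply, ArithmeticFunction.add_apply,
        bb_apply hn, dl_apply_bb hp.ne_zero hn, dl_apply_bb (pow_ne_zero 2 hp.ne_zero) hn,
        if_pos hpn, hsp2 1 n hpn, hsp2 s n hpn]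
      have hi := hinv _ (hdiv n hn hpn) s hsA
      rcases hpow _ hA with h3 | h3 | h3
      · exact absurd h3 h2
      · rw [h3, hs2, inv_mul_cancel, mul_one, mul_one, hi]
        split_ifs <;> ring
      · rw [h3, inv_inv, hs2, inv_mul_cancel, mul_one, mul_one, hi]
        split_ifs <;> ring
  · right
    right
    refine ⟨hA, fun n hn hpn => ?_⟩
    have h1 := hr.inert p hp hpf hA
    rw [sub_mul, one_mul, af_sub, bb_apply hn, dl_apply_bb (pow_ne_zero 2 hp.ne_zero) hn,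
      h1 1 n hpn, h1 s n hpn, htwo _ hA, inv_one, one_mul, one_mul]
    split_ifs <;> ring

end rec

theorem artin_factorization (ι : Qbar →+* ℂ) (K k : IntermediateField ℚ Qbar) [NumberField K]
    [NumberField k] (hK : finrank ℚ K = 3) (hk : finrank ℚ k = 2) (hc : ∃ x ∈ K, (ι x).im ≠ 0)
    (hN : Normal ℚ ↥(K ⊔ k)) {f : ℕ} (hf : 2 ≤ f) (hU : Unram (K ⊔ k) f)
    (art : Ideal (𝓞 k) → GQ) (hart : IsArtin k (K ⊔ k) (Ideal.span {(f : 𝓞 k)}) art) :
    ArtinFactorization K k f (Ideal.span {(f : 𝓞 k)}) art := by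
  classical
  intro σ hσk hσK n hnf
  haveI hfd : FiniteDimensional ℚ ↥(K ⊔ k) := inferInstance
  haveI hnf' : NumberField ↥(K ⊔ k) := ⟨⟩
  obtain ⟨M, hM⟩ : ∃ M : IntermediateField ℚ Qbar, M = K ⊔ k := ⟨_, rfl⟩
  rw [← hM] at hN hU hart hfd hnf' ⊢
  haveI := hN
  have hKM : K ≤ M := by rw [hM]; exact le_sup_left
  have hkM : k ≤ M := by rw [hM]; exact le_sup_right
  obtain ⟨σ₀, c₀, hG⟩ := exists_gs (M := M) hK hk hM hc
  obtain ⟨𝔓, g, hg⟩ := exists_frobs (M := M) hN
  have hr := rec_cN hk hkM le_rfl hN hU hart hg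
  have hkn := quad_normal hk
  -- the group
  have iA := sg_index (N := M) hk hkM hG.c_k
  have cA : ∀ x ∈ sg M k, ∀ y ∈ sg M k, x * y = y * x := by
    refine sg_comm fun σ τ h1 h2 => ?_
    have h3 := hG.comm σ τ h1 h2
    rw [map_mul, map_mul, map_inv, mul_inv_eq_iff_eq_mul] at h3
    rw [← map_mul, ← map_mul] at h3
    exact fun x hx => (rr_eq.1 h3 x hx).symm
  have hfix1 : ∀ τ : GQ, Fixes k τ → Fixes K τ → rr M τ = 1 := by
    intro τ h1 h2
    rw [← map_one (rr M), rr_eq]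
    intro x hx
    rw [hM] at hx
    exact fixes_sup.2 ⟨h2, h1⟩ x hx
  have hs1 : rr M σ ≠ 1 := by
    intro h
    rw [← map_one (rr M)] at h
    exact hσK ((fixes_congr hKM h).2 (Fixes.one K))
  have hs01 : rr M σ₀ ≠ 1 := by
    intro h
    rw [← map_one (rr M)] at h
    exact hG.s_K ((fixes_congr hKM h).2 (Fixes.one K))
  have hs02 : rr M σ₀ ^ 2 = (rr M σ₀)⁻¹ := by
    rw [eq_inv_iff_mul_eq_one, ← hG.three, ← pow_succ]
  have hcase : ∀ τ : GQ, Fixes k τ → rr M τ = 1 ∨ rr M τ = rr M σ₀ ∨ rr M τ = (rr M σ₀)⁻¹ := by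
    intro τ hτ
    obtain ⟨j, hj, h⟩ := hG.pow τ hτ
    interval_cases j
    · left; rw [h, pow_zero]
    · right; left; rw [h, pow_one]
    · right; right; rw [h, hs02]
  have hσ3 : rr M σ ^ 3 = 1 := by
    rcases hcase σ hσk with h | h | h
    · rw [h, one_pow]
    · rw [h, hG.three]
    · rw [h, inv_pow, hG.three, inv_one]
  have hpow : ∀ x ∈ sg M k, x = 1 ∨ x = rr M σ ∨ x = (rr M σ)⁻¹ := by
    rintro _ ⟨τ, hτ, rfl⟩
    rcases hcase τ (fixes_iff.2 hτ) with h | h | h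
    · exact Or.inl h
    · rcases hcase σ hσk with h2 | h2 | h2
      · exact absurd h2 hs1
      · right; left; rw [h2]; exact h
      · right; right; rw [h2, inv_inv]; exact h
    · rcases hcase σ hσk with h2 | h2 | h2
      · exact absurd h2 hs1
      · right; right; rw [h2]; exact h
      · right; left; rw [h2]; exact h
  have hanti : ∀ x ∈ sg M k, ∀ y, y ∉ sg M k → y * x * y⁻¹ = x⁻¹ := by
    rintro _ ⟨τ, hτ, rfl⟩ y hy
    obtain ⟨y', rfl⟩ := rr_surj M y
    rw [mem_sg hkM] at hy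
    have h1 := hG.anti τ y' (fixes_iff.2 hτ) hy
    rw [map_mul, map_mul, map_inv] at h1
    exact h1
  have htwo : ∀ y, y ∉ sg M k → y * y = 1 := by
    intro y hy
    obtain ⟨y', rfl⟩ := rr_surj M y
    rw [mem_sg hkM] at hy
    exact hG.two y' hy
  have hsA : rr M σ ∈ sg M k := (mem_sg hkM).2 hσk
  set b : ArithmeticFunction ℤ := bb fun m =>
    cN k M (Ideal.span {(f : 𝓞 k)}) art 1 m - cN k M (Ideal.span {(f : 𝓞 k)}) art (rr M σ) m
    with hb
  -- the primes of `K`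
  have hUK : ∀ p : ℕ, p.Prime → ¬ p ∣ f → ∀ P : Ideal (𝓞 K), P.IsPrime → (p : 𝓞 K) ∈ P →
      (p : 𝓞 K) ∉ P ^ 2 := by
    intro p hp hpf P hP hpP h5
    obtain ⟨𝔔, h𝔔, h𝔔u⟩ := exists_over P hP
    haveI := h𝔔
    have h𝔔p : (p : 𝓞 Qbar) ∈ 𝔔 := by
      have h4 : (p : 𝓞 K) ∈ 𝔔.under (𝓞 K) := by rw [h𝔔u]; exact hpP
      rw [mem_under, map_natCast] at h4
      exact h4
    have h6 : (p : 𝓞 M) ∈ (𝔔.under (𝓞 M)) ^ 2 := by
      let i : 𝓞 K →+* 𝓞 M := inc hKM
      have h7 : Ideal.map i P ≤ 𝔔.under (𝓞 M) := by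
        rw [Ideal.map_le_iff_le_comap, comap_inc hKM 𝔔, h𝔔u]
      have h8 : i (p : 𝓞 K) ∈ Ideal.map i (P ^ 2) := Ideal.mem_map_of_mem i h5
      rw [map_natCast, Ideal.map_pow] at h8
      exact Ideal.pow_right_mono h7 2 h8
    exact hU p hp hpf (𝔔.under (𝓞 M)) inferInstance (nat_mem_under h𝔔p) h6
  -- the Frobenius automorphisms at all primes
  have hfrob : ∀ p : ℕ, p.Prime → ∀ P : Ideal (𝓞 K), P.IsPrime → (p : 𝓞 K) ∈ P →
      ∃ (𝔔 : Ideal (𝓞 Qbar)) (s : GQ), 𝔔.IsPrime ∧ (p : 𝓞 Qbar) ∈ 𝔔 ∧ 𝔔.under (𝓞 K) = P ∧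
        Fr M 𝔔 p (s * g p * s⁻¹) := by
    intro p hp P hP hpP
    obtain ⟨h1, h2, h3⟩ := hg p hp
    obtain ⟨𝔔, h𝔔, h𝔔u⟩ := exists_over P hP
    have h𝔔p : (p : 𝓞 Qbar) ∈ 𝔔 := by
      have h4 : (p : 𝓞 K) ∈ 𝔔.under (𝓞 K) := by rw [h𝔔u]; exact hpP
      rw [mem_under, map_natCast] at h4
      exact h4
    obtain ⟨s, hs⟩ := exists_maps hN hp h1 h2 h𝔔 h𝔔p
    exact ⟨𝔔, s, h𝔔, h𝔔p, h𝔔u, Fr.conj hN h3 hs⟩
  have hone : NK K (Ideal.span {(f : 𝓞 K)}) 1 = 1 := NK_one hf
  have hb1 : (one1 * b) 1 = 1 := by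
    rw [ArithmeticFunction.mul_apply]
    simp only [Nat.divisorsAntidiagonal_one, Finset.sum_singleton]
    rw [one1_apply one_ne_zero, hb, bb_apply one_ne_zero, hr.one, hr.one, if_pos rfl, if_neg hs1]
    norm_num
  have key := zero_of_kills (f := f) (D := NK K (Ideal.span {(f : 𝓞 K)}) - one1 * b)
    (by rw [af_sub, hone, hb1, sub_self]) (fun p hp hpf => ?_)
  · by_cases hn0 : n = 0
    · subst hn0
      exfalso
      rw [Nat.coprime_zero_left] at hnf
      omega
    have h1 := key n hn0 hnf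
    rw [af_sub, sub_eq_zero, NK_eq hn0 hnf] at h1
    rw [h1, ArithmeticFunction.mul_apply, Nat.sum_divisorsAntidiagonal' (f := fun a d => one1 a * b d)]
    refine Finset.sum_congr rfl fun d hd => ?_
    have hd0 : d ≠ 0 := (Nat.pos_of_mem_divisors hd).ne'
    have hnd : n / d ≠ 0 := by
      have h2 := Nat.div_pos (Nat.le_of_dvd (Nat.pos_of_ne_zero hn0) (Nat.dvd_of_mem_divisors hd))
        (Nat.pos_of_ne_zero hd0)
      exact h2.ne'
    rw [one1_apply hnd, one_mul, hb, bb_apply hd0, cN_rr, ← map_one (rr M), cN_rr]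
  · obtain ⟨g1, g2, g3⟩ := hg p hp
    haveI := g1
    have hζ := kills_one1 hp
    have hpP : (p : 𝓞 K) ∈ (𝔓 p).under (𝓞 K) := nat_mem_under g2
    rcases kills_rec hr iA cA hsA hs1 hσ3 hpow hanti htwo hp hpf with ⟨h1, h2⟩ | ⟨h1, h1', h2⟩ |
      ⟨h1, h2⟩
    · -- totally split
      have hall : ∀ P : Ideal (𝓞 K), P.IsPrime → (p : 𝓞 K) ∈ P → Ideal.absNorm P = p := by
        intro P hP hpP
        obtain ⟨𝔔, s, q1, q2, q3, q4⟩ := hfrob p hp P hP hpP
        have h3 : rr M (s * g p * s⁻¹) = rr M 1 := by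
          rw [map_mul, map_mul, h1, map_one, map_inv]; group
        have h4 := card_le_of_fr hKM hp q1 q2 hp.one_lt q4
          ((fixes_congr hKM h3).2 (Fixes.one K))
        rw [q3] at h4
        rcases norm_cases3 hK hp hP hpP with h5 | h5 | h5
        · exact h5
        · exfalso
          rw [h5] at h4
          have := hp.one_lt
          nlinarith
        · exfalso
          rw [h5] at h4
          have h6 := Nat.pow_lt_pow_right hp.one_lt (show 1 < 3 by norm_num)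
          rw [pow_one] at h6
          omega
      refine ⟨(1 - dl p 1) * ((1 - dl p 1) * (1 - dl p 1)), ?_, ?_⟩
      · rw [ArithmeticFunction.mul_apply]
        simp [af_sub, dl_apply, hp.one_lt.ne, ArithmeticFunction.mul_apply]
      · refine Kills.sub ?_ (Kills.mul hp hζ h2)
        rcases kills_one hf hK hp hpf (hUK p hp hpf) ⟨_, inferInstance, hpP, hall _ inferInstance hpP⟩
          with ⟨-, h3⟩ | ⟨⟨P, hP, hpP', h3⟩, -⟩
        · rw [← mul_assoc]
          exact h3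
        · exact absurd (hall P hP hpP') h3
    · -- order three
      rw [mem_sg hkM] at h1
      have hno : ∀ P : Ideal (𝓞 K), P.IsPrime → (p : 𝓞 K) ∈ P → Ideal.absNorm P ≠ p := by
        intro P hP hpP h3
        obtain ⟨𝔔, s, q1, q2, q3, q4⟩ := hfrob p hp P hP hpP
        rw [← q3] at h3
        have h4 := norm_fixes hKM hN hU hp hpf q1 q2 q4 h3
        have h5 : Fixes k (s * g p * s⁻¹) := h1.conj hkn s
        have h6 := hfix1 _ h5 h4
        rw [map_mul, map_mul, map_inv, mul_inv_eq_one, mul_eq_left] at h6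
        exact h1' h6
      refine ⟨(1 - dl p 1) * (1 + dl p 1 + dl (p ^ 2) 1), ?_, ?_⟩
      · rw [ArithmeticFunction.mul_apply]
        have h6 := hp.one_lt
        have h7 : 1 < p ^ 2 := Nat.one_lt_pow (by norm_num) h6
        simp [af_sub, dl_apply, hp.one_lt.ne, h7.ne, ArithmeticFunction.add_apply]
      · refine Kills.sub ?_ (Kills.mul hp hζ h2)
        have h3 : ((1 - dl p 1) * (1 + dl p 1 + dl (p ^ 2) 1) : ArithmeticFunction ℤ) =
            1 - dl (p ^ 3) 1 := by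
          have h4 : dl (p ^ 2) (1 : ℤ) = dl p 1 * dl p 1 := by
            rw [dl_mul hp.ne_zero, pow_two, one_mul]
          have h5 : dl (p ^ 3) (1 : ℤ) = dl p 1 * (dl p 1 * dl p 1) := by
            rw [dl_mul hp.ne_zero, dl_mul hp.ne_zero, one_mul, one_mul]
            congr 1
            ring
          rw [h4, h5]
          ring
        rw [h3]
        exact kills_inert hf hK hp hpf hno
    · -- order two
      rw [mem_sg hkM] at h1
      have hex : ∃ P : Ideal (𝓞 K), P.IsPrime ∧ (p : 𝓞 K) ∈ P ∧ Ideal.absNorm P = p := by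
        have hgg : rr M (g p * g p) = rr M 1 := by
          rw [map_mul, hG.two _ h1, map_one]
        have h3 := fr_sq hN g3
        have hp2 : 1 < p ^ 2 := Nat.one_lt_pow (by norm_num) hp.one_lt
        have h4 := card_le_of_fr hKM hp g1 g2 hp2 h3 ((fixes_congr hKM hgg).2 (Fixes.one K))
        rcases norm_cases3 hK hp (P := (𝔓 p).under (𝓞 K)) inferInstance hpP with h5 | h5 | h5
        · exact ⟨_, inferInstance, hpP, h5⟩
        · obtain ⟨J, hJ⟩ : (𝔓 p).under (𝓞 K) ∣ Ideal.span {(p : 𝓞 K)} :=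
            Ideal.dvd_span_singleton.2 hpP
          have hNJ := congrArg Ideal.absNorm hJ
          rw [absNorm_natCast3 hK, map_mul, h5] at hNJ
          have h6 : Ideal.absNorm J = p := by
            have h7 : 0 < p ^ 2 := pow_pos hp.pos 2
            exact (Nat.eq_of_mul_eq_mul_left h7 (by rw [← hNJ]; ring)).symm
          exact ⟨J, Ideal.isPrime_of_irreducible_absNorm (by rw [h6]; exact hp),
            (mem_of_mul hJ).2, h6⟩
        · exfalso
          rw [h5] at h4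
          have h6 := Nat.pow_lt_pow_right hp.one_lt (show 2 < 3 by norm_num)
          omega
      refine ⟨(1 - dl p 1) * (1 - dl (p ^ 2) 1), ?_, ?_⟩
      · rw [ArithmeticFunction.mul_apply]
        have h6 := hp.one_lt
        have h7 : 1 < p ^ 2 := Nat.one_lt_pow (by norm_num) h6
        simp [af_sub, dl_apply, hp.one_lt.ne, h7.ne]
      · refine Kills.sub ?_ (Kills.mul hp hζ h2)
        rcases kills_one hf hK hp hpf (hUK p hp hpf) hex with ⟨hall, -⟩ | ⟨-, h3⟩
        · exfalso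
          -- all conjugates of the Frobenius automorphism fix `K`
          have h4 : ∀ s : GQ, Fixes K (s * g p * s⁻¹) := by
            intro s
            let φ : 𝓞 Qbar →+* 𝓞 Qbar := RingOfIntegers.mapRingHom ((s⁻¹ : GQ) : Qbar →+* Qbar)
            have hφ : ∀ x : 𝓞 Qbar, ((φ x : 𝓞 Qbar) : Qbar) = s⁻¹ (x : Qbar) := fun x => rfl
            have q1 : (Ideal.comap φ (𝔓 p)).IsPrime := Ideal.comap_isPrime φ (𝔓 p)
            have q2 : (p : 𝓞 Qbar) ∈ Ideal.comap φ (𝔓 p) := by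
              rw [Ideal.mem_comap, map_natCast]
              exact g2
            have q3 : Maps M (𝔓 p) (Ideal.comap φ (𝔓 p)) s := by
              intro x _ hx
              rw [Ideal.mem_comap]
              have h8 : φ (ap s x) = x := by
                apply RingOfIntegers.ext
                rw [hφ, coe_ap, ← AlgEquiv.mul_apply, inv_mul_cancel, AlgEquiv.one_apply]
              rw [h8]
              exact hx
            haveI := q1
            exact norm_fixes hKM hN hU hp hpf q1 q2 (Fr.conj hN g3 q3)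
              (hall _ inferInstance (nat_mem_under q2))
          have e1 := h4 1
          have e2 := h4 σ₀
          have e3 := e2.mul e1.inv
          have e4 : Fixes k (σ₀ * g p * σ₀⁻¹ * (1 * g p * 1⁻¹)⁻¹) := by
            have e5 : σ₀ * g p * σ₀⁻¹ * (1 * g p * 1⁻¹)⁻¹ =
              σ₀ * (g p * σ₀⁻¹ * (g p)⁻¹) := by group
            rw [e5]
            exact hG.s_k.mul (hG.s_k.inv.conj hkn _)
          have e6 := hfix1 _ e4 e3
          have e7 : rr M (σ₀ * g p * σ₀⁻¹ * (1 * g p * 1⁻¹)⁻¹) = rr M σ₀ * rr M σ₀ := by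
            have e5 : σ₀ * g p * σ₀⁻¹ * (1 * g p * 1⁻¹)⁻¹ =
              σ₀ * (g p * σ₀⁻¹ * (g p)⁻¹) := by group
            rw [e5, map_mul, hG.anti _ _ hG.s_k.inv h1, map_inv, inv_inv]
          rw [e7, ← pow_two, hs02, inv_eq_one] at e6
          exact hs01 e6
        · exact h3

end Pool.Agent.J4.H48.AF
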